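import Pool.Agent.GA.All

/-!
# Generic absoluteness for Cohen products, random algebras and Hechler iterations is inconsistent

For a class `C` of forcings, `A_C` says that the universe is elementarily equivalent to all its generic
extensions by forcings in `C`; as a scheme: for every sentence `φ` and every `P` in `C`, `φ` holds if
and only if the largest condition of `P` forces `φ`.  We show in ZF, without the axiom of choice, that
`A_C` fails for each of the classes `ℂ*` (finite support products of Cohen forcing), `ℝ_*` (the measure
algebras of `2^κ`) and `ℍ^(*)` (the finite support iterations of Hechler forcing): every model of ZF,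
well-founded or not, has an infinite cardinal `κ` whose forcing in the class changes the theory.

Idea of the proof.  For an infinite ordinal `χ` let `S(χ)` be the least ordinal `ν` such that there is
no `f : ν → χ^ω` which is sparse: for no `e ∈ χ^ω` is there a strictly increasing `g` from `χ` to the
set of all `i < ν` with `ran f(i) ⊆ ran e`.  Let `h(χ)` be the least ordinal without an injection into
`χ^ω`.  Let `W` be an extension of `V` by the forcing of the class with an infinite cardinal `κ` of `V`
as index, and let `η` be `h(ω)`, computed in `W`.  New sequences of ordinals are covered by old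
countable sets of ordinals and the reals of `W` are coded by the elements of `κ^ω` of `V`; it follows
that `η = h(κ)` of `V` and `S(χ) ≤ h(χ)` of `V`, with equality if `χ ≥ h(ω)` of `V`.  Consider the
sentence: if `χ` is the least infinite ordinal with `S(χ) = η`, then `χ = S(χ')` for some infinite
`χ' < χ`.  It is true in `W` for `κ = h(h(ω))` of `V`, and false in `W` if `κ` is closed under the
function `h` of `V`.  (The axiom gives that `W` is a model of ZF.)  For arbitrary models of ZF one
passes to a countable elementary submodel.
-/

universe u

namespace Pool.Agent.Results.MP_285cf9_lc.NoGenericAbsoluteness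

open GA (SetStr IsZF)
open GA.Dp

/-- Let `M` be a model of ZF.  For every `L` in `M` there is exactly one definable relation
`p ⊩ x = y` satisfying its recursion equation, so forcing is well defined; for every ordinal `κ` of `M`
there are exactly one Cohen forcing `ℂ^κ`, exactly one random algebra `ℝ_κ` and exactly one Hechler
iteration `ℍ^(κ)` in `M`, and they are forcing notions.  For each of the three classes there are an
infinite cardinal `κ` of `M` and a sentence which is true in `M` and not forced by the largest condition
of the forcing with index `κ`, or the reverse. -/
theorem result (M : Type u) [SetStr M] [IsZF M] :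
    (∀ L : M, ∃! R, IsForcedEq L R) ∧
    (∀ κ : M, IsOrd κ →
      (∃ P L o, IsForcing P L o ∧ IsCohen κ P L o ∧
        ∀ P' L' o', IsCohen κ P' L' o' → P' = P ∧ L' = L ∧ o' = o) ∧
      (∃ P L o, IsForcing P L o ∧ IsRandom κ P L o ∧
        ∀ P' L' o', IsRandom κ P' L' o' → P' = P ∧ L' = L ∧ o' = o) ∧
      (∃ P L o, IsForcing P L o ∧ IsHechler κ P L o ∧
        ∀ P' L' o', IsHechler κ P' L' o' → P' = P ∧ L' = L ∧ o' = o)) ∧
    (∃ κ : M, IsInfCard κ ∧ ∃ P L o, IsCohen κ P L o ∧ ¬ Absolute L o) ∧
    (∃ κ : M, IsInfCard κ ∧ ∃ P L o, IsRandom κ P L o ∧ ¬ Absolute L o) ∧
    (∃ κ : M, IsInfCard κ ∧ ∃ P L o, IsHechler κ P L o ∧ ¬ Absolute L o) :=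
  all_fail M

end Pool.Agent.Results.MP_285cf9_lc.NoGenericAbsoluteness
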